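import Pool.Agent.U722.FF.Stm

/-!
Project FF, package EDGE: an element fixing an edge of the tree has a residual eigenvalue.
-/

set_option autoImplicit false

namespace Pool.Agent.U128.FFP

open Matrix Pool.Agent.U709.BT Pool.Agent.U709.BT.DV

variable {F : Type} [Field F] {V : DV F}

theorem core {m : ℤ} {a b c d s11 s12 s21 s22 t11 t21 : F} (ha : a ≠ 0) (hva : V.v a = m)
    (hb : V.L m b) (hdet : V.L (2 * m + 1) (a * d - b * c))
    (h12 : V.L 0 s12) (g11 : V.L 0 t11) (g21 : V.L 0 t21)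
    (e1 : s11 * a + s12 * c = a * t11 + b * t21) (e2 : s21 * a + s22 * c = c * t11 + d * t21) :
    ∃ r : F, V.L 0 r ∧ V.L 1 (r ^ 2 - (s11 + s22) * r + (s11 * s22 - s12 * s21)) := by
  have hba : V.L 0 (b / a) := by
    have := L_div hb ha hva
    rwa [sub_self] at this
  refine ⟨t11 + b / a * t21, ?_, ?_⟩
  · have := L_mul hba g21
    rw [add_zero] at this
    exact L_add g11 this
  · set r := t11 + b / a * t21 with hr
    have hz1 : s11 * a + s12 * c = r * a := by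
      rw [e1, hr]
      field_simp
    have hz2 : s21 * a + s22 * c - r * c = t21 * (a * d - b * c) / a := by
      rw [e2, hr]
      field_simp
      ring
    have key : a * (r ^ 2 - (s11 + s22) * r + (s11 * s22 - s12 * s21)) =
        -(s12 * (t21 * (a * d - b * c) / a)) := by
      rw [← hz2]
      linear_combination (s22 - r) * hz1
    have hL : V.L (m + 1) (-(s12 * (t21 * (a * d - b * c) / a))) := by
      have h1 := L_neg (L_mul h12 (L_div (L_mul g21 hdet) ha hva))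
      exact L_mono (by omega) h1
    rw [← key] at hL
    exact L_of_mul ha hva hL

theorem L_of_S {s : GL (Fin 2) F} (hs : s ∈ V.S) (hv : V.v s.1.det = 0) (i j : Fin 2) :
    V.L 0 (s.1 i j) := by
  obtain ⟨m, h1, h2⟩ := (V.mem_S).1 hs
  have : m = 0 := by omega
  subst this
  exact h1 i j

theorem v_conj {s g : GL (Fin 2) F} : V.v (g⁻¹ * s * g).1.det = V.v s.1.det := by
  rw [v_det_mul, v_det_mul, v_det_inv]
  ring

theorem t_EDGE : U722.FF.S_EDGE := by
  intro F _ V u v h huv hdet hu hv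
  obtain ⟨g, p, hp, rfl, rfl⟩ := huv
  -- the conjugates
  have hs : g⁻¹ * h * g ∈ V.S := by
    have h1 : (QuotientGroup.mk g : V.Vt) = QuotientGroup.mk (h * g) := hu.symm
    rw [QuotientGroup.eq] at h1
    rwa [mul_assoc]
  have hs' : (g * p)⁻¹ * h * (g * p) ∈ V.S := by
    have h1 : (QuotientGroup.mk (g * p) : V.Vt) = QuotientGroup.mk (h * (g * p)) := hv.symm
    rw [QuotientGroup.eq] at h1
    rwa [mul_assoc]
  set s : GL (Fin 2) F := g⁻¹ * h * g with hsd
  have hs'' : (g * p)⁻¹ * h * (g * p) = p⁻¹ * s * p := by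
    rw [hsd]
    group
  rw [hs''] at hs'
  set t : GL (Fin 2) F := p⁻¹ * s * p with htd
  have vs : V.v s.1.det = 0 := by rw [hsd, v_conj, hdet]
  have vt : V.v t.1.det = 0 := by rw [htd, v_conj, vs]
  have Ls := L_of_S hs vs
  have Lt := L_of_S hs' vt
  have htr : h.1.trace = s.1 0 0 + s.1 1 1 := by
    rw [← Matrix.trace_fin_two]
    exact (Matrix.trace_units_conj' g h.1).symm
  have hde : h.1.det = s.1 0 0 * s.1 1 1 - s.1 0 1 * s.1 1 0 := by
    rw [← Matrix.det_fin_two]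
    exact (Matrix.det_units_conj' g h.1).symm
  have hpt : s * p = p * t := by
    rw [htd]
    group
  have ent : ∀ i j, s.1 i 0 * p.1 0 j + s.1 i 1 * p.1 1 j =
      p.1 i 0 * t.1 0 j + p.1 i 1 * t.1 1 j := by
    intro i j
    rw [← mul_entry, ← mul_entry, hpt]
  obtain ⟨m, h1, h2⟩ := hp
  have hpd : V.L (2 * m + 1) (p.1 0 0 * p.1 1 1 - p.1 0 1 * p.1 1 0) := by
    rw [← Matrix.det_fin_two]
    intro _
    rw [h2]
  obtain ⟨i, j, hij, hvij⟩ := exists_entry h1 h2 (fun hcon => by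
    have := E_nonneg hcon
    omega)
  rcases (by omega : i = 0 ∨ i = 1) with rfl | rfl <;>
    rcases (by omega : j = 0 ∨ j = 1) with rfl | rfl
  · obtain ⟨r, hr0, hr1⟩ := core (s11 := s.1 0 0) (s12 := s.1 0 1) (s21 := s.1 1 0)
      (s22 := s.1 1 1) (t11 := t.1 0 0) (t21 := t.1 1 0) (c := p.1 1 0) (d := p.1 1 1)
      hij hvij (h1 0 1) hpd (Ls 0 1) (Lt 0 0) (Lt 1 0) (ent 0 0) (ent 1 0)
    refine ⟨r, hr0, ?_⟩
    rw [htr, hde]
    exact hr1
  · have hpd' : V.L (2 * m + 1) (p.1 0 1 * p.1 1 0 - p.1 0 0 * p.1 1 1) := by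
      have := L_neg hpd
      rwa [neg_sub] at this
    obtain ⟨r, hr0, hr1⟩ := core (s11 := s.1 0 0) (s12 := s.1 0 1) (s21 := s.1 1 0)
      (s22 := s.1 1 1) (t11 := t.1 1 1) (t21 := t.1 0 1) (c := p.1 1 1) (d := p.1 1 0)
      hij hvij (h1 0 0) hpd' (Ls 0 1) (Lt 1 1) (Lt 0 1) ((ent 0 1).trans (add_comm _ _))
      ((ent 1 1).trans (add_comm _ _))
    refine ⟨r, hr0, ?_⟩
    rw [htr, hde]
    exact hr1
  · have hpd' : V.L (2 * m + 1) (p.1 1 0 * p.1 0 1 - p.1 1 1 * p.1 0 0) := by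
      have := L_neg hpd
      rw [neg_sub] at this
      rwa [mul_comm (p.1 1 0), mul_comm (p.1 1 1)]
    obtain ⟨r, hr0, hr1⟩ := core (s11 := s.1 1 1) (s12 := s.1 1 0) (s21 := s.1 0 1)
      (s22 := s.1 0 0) (t11 := t.1 0 0) (t21 := t.1 1 0) (c := p.1 0 0) (d := p.1 0 1)
      hij hvij (h1 1 1) hpd' (Ls 1 0) (Lt 0 0) (Lt 1 0) ((add_comm _ _).trans (ent 1 0))
      ((add_comm _ _).trans (ent 0 0))
    refine ⟨r, hr0, ?_⟩
    rw [htr, hde, add_comm (s.1 0 0), mul_comm (s.1 0 0), mul_comm (s.1 0 1)]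
    exact hr1
  · have hpd' : V.L (2 * m + 1) (p.1 1 1 * p.1 0 0 - p.1 1 0 * p.1 0 1) := by
      rwa [mul_comm (p.1 1 1), mul_comm (p.1 1 0)]
    obtain ⟨r, hr0, hr1⟩ := core (s11 := s.1 1 1) (s12 := s.1 1 0) (s21 := s.1 0 1)
      (s22 := s.1 0 0) (t11 := t.1 1 1) (t21 := t.1 0 1) (c := p.1 0 1) (d := p.1 0 0)
      hij hvij (h1 1 0) hpd' (Ls 1 0) (Lt 1 1) (Lt 0 1)
      (((add_comm _ _).trans (ent 1 1)).trans (add_comm _ _))
      (((add_comm _ _).trans (ent 0 1)).trans (add_comm _ _))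
    refine ⟨r, hr0, ?_⟩
    rw [htr, hde, add_comm (s.1 0 0), mul_comm (s.1 0 0), mul_comm (s.1 0 1)]
    exact hr1

end Pool.Agent.U128.FFP
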